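import Pool.Agent.Q278.QC2

set_option autoImplicit false

/-! The q-congruence with weight `[3k+1]` and factor `8^k`. -/

namespace Pool.Agent.Results.MP_c82d9a_nt.Full

open Finset Polynomial Q278.Loc Q278.Cyc Q278.Unit Q278.Blk Q278.QC2

/-- `[m] = 1 + q + ⋯ + q ^ (m - 1)`. -/
noncomputable def qint (m : ℕ) : RatFunc ℚ := ∑ i ∈ range m, RatFunc.X ^ i

/-- `(a; Q)_k`. -/
noncomputable def poch (a Q : RatFunc ℚ) (k : ℕ) : RatFunc ℚ := ∏ j ∈ range k, (1 - a * Q ^ j)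

/-- `c_j(q)`. -/
noncomputable def cj (j : ℕ) : RatFunc ℚ :=
  (poch RatFunc.X (RatFunc.X ^ 2) j / poch RatFunc.X RatFunc.X j) ^ 3

/-- `b_j`. -/
def bj (j : ℕ) : ℚ := 8 ^ j * (∏ i ∈ range j, ((1 : ℚ) / 2 + i)) ^ 3 / (j.factorial : ℚ) ^ 3

/-- `L_{m,n}(q)`. -/
noncomputable def L (m n : ℕ) : RatFunc ℚ := ∑ j ∈ range (m * n), (-1) ^ j * qint (3 * j + 1) * cj j

/-- `R_{m,n}(q)`. -/
noncomputable def R (m n : ℕ) : RatFunc ℚ := (-1) ^ ((n - 1) / 2) * RatFunc.X ^ ((n - 1) ^ 2 / 4) *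
  qint n * ((∑ j ∈ range m, (-1) ^ j * (3 * (j : ℚ) + 1) * bj j : ℚ) : RatFunc ℚ)

/-- The congruence modulo `Φ_n(q)²`. -/
def Holds (m n : ℕ) : Prop := cyclotomic n ℚ ^ 2 ∣ RatFunc.num (L m n - R m n) ∧
  IsCoprime (RatFunc.denom (L m n - R m n)) (cyclotomic n ℚ ^ 2)

theorem qint_eq (m : ℕ) : (1 - q) * qint m = 1 - q ^ m := by
  have := geom_sum_mul q m
  unfold qint
  linear_combination -this

theorem cj_eq (k : ℕ) : cj k = rr q k ^ 3 := by
  unfold cj poch rr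
  rw [← prod_div_distrib]
  congr 1
  exact prod_congr rfl (fun l _ => by congr 1 <;> ring)

theorem bj_eq (j : ℕ) : ((bj j : ℚ) : RatFunc ℚ) = bb (RatFunc ℚ) j ^ 3 := by
  have h : ∀ k, 2 ^ k * (∏ i ∈ range k, ((1 : ℚ) / 2 + i)) / (k.factorial : ℚ) =
      ∏ i ∈ range k, (((2 * i + 1 : ℕ) : ℚ) / ((i + 1 : ℕ) : ℚ)) := by
    intro k
    induction k with
    | zero => simp
    | succ k ih =>
      rw [prod_range_succ, prod_range_succ, ← ih, Nat.factorial_succ]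
      have : (k.factorial : ℚ) ≠ 0 := by exact_mod_cast k.factorial_ne_zero
      push_cast
      field_simp
      ring
  have e : bj j = (∏ i ∈ range j, (((2 * i + 1 : ℕ) : ℚ) / ((i + 1 : ℕ) : ℚ))) ^ 3 := by
    rw [← h]
    unfold bj
    rw [div_pow, mul_pow, ← pow_mul, mul_comm j 3, pow_mul]
    norm_num
  rw [e]
  unfold bb
  push_cast
  rfl

theorem local_main {n N : ℕ} {η : ℂ} (hη : IsPrimitiveRoot η n) (hn : n = 2 * N + 1) (hN : 0 < N)
    (m : ℕ) : L m n - R m n ∈ I (Reg η) (Φ n) 2 := by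
  have h : H (Reg η) (Φ n) n N q := by
    have := cycH hη hn (d := 1) (Nat.coprime_one_right n) one_pos
    rwa [pow_one] at this
  have h1q : U (Reg η) (1 - q) := by
    have := h.hu 1 (by intro hd; have := Nat.le_of_dvd one_pos hd; omega)
    rwa [pow_one] at this
  have key := mul_O h1q.2.1 (total h m hN)
  convert key using 1
  unfold L R
  have e1 : ∀ k, qint k = (1 - q)⁻¹ * (1 - q ^ k) := by
    intro k
    rw [← qint_eq k, ← mul_assoc, inv_mul_cancel₀ h1q.2.2, one_mul]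
  have e2 : (n - 1) / 2 = N := by omega
  have e3 : (n - 1) ^ 2 / 4 = N ^ 2 := by
    rw [hn, show 2 * N + 1 - 1 = 2 * N by omega, mul_pow]
    norm_num
  have a1 : ∑ j ∈ range (n * m), (-1) ^ j * qint (3 * j + 1) * cj j = (1 - q)⁻¹ *
      ∑ k ∈ range (n * m), (-1) ^ k * (1 - q ^ (3 * k + 1)) * rr q k ^ 3 := by
    rw [mul_sum]
    apply sum_congr rfl
    intro k _
    rw [e1, cj_eq]
    ring
  have a2 : ((∑ j ∈ range m, (-1) ^ j * (3 * (j : ℚ) + 1) * bj j : ℚ) : RatFunc ℚ) =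
      ∑ j ∈ range m, (-1) ^ j * ((3 * j + 1 : ℕ) : RatFunc ℚ) * bb (RatFunc ℚ) j ^ 3 := by
    push_cast
    exact sum_congr rfl fun j _ => by rw [bj_eq]
  rw [e2, e3, e1 n, mul_comm m n, a1, a2]
  ring

/-! ### The degenerate case `n = 1` -/

theorem not_one : ¬ Holds 2 1 := by
  rintro ⟨h1, h2⟩
  have hη : IsPrimitiveRoot (1 : ℂ) 1 := IsPrimitiveRoot.one
  have hmem : L 2 1 - R 2 1 ∈ I (Reg 1) (Φ 1) 2 :=
    mem_of_cong one_pos hη two_pos h2 h1 (RatFunc.num_div_denom _).symm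
  have h1q : (1 : RatFunc ℚ) - q ≠ 0 := by
    have := one_sub_q_ne (show 0 < 1 by norm_num)
    rwa [pow_one] at this
  have e1 : L 2 1 - R 2 1 = Φ 1 ^ 1 * (-q ^ 2 - 2 * q - 3) := by
    have hΦ : Φ 1 = q - 1 := by
      unfold Φ
      rw [cyclotomic_one, map_sub, map_one, RatFunc.algebraMap_X]
    have hc1 : cj 1 = 1 := by
      unfold cj poch
      simp only [range_one, prod_singleton, pow_zero, mul_one]
      rw [div_self h1q, one_pow]
    have hc0 : cj 0 = 1 := by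
      unfold cj poch
      simp
    have hb : (∑ j ∈ range 2, (-1) ^ j * (3 * (j : ℚ) + 1) * bj j : ℚ) = -3 := by
      unfold bj
      simp [sum_range_succ]
      norm_num
    unfold L R
    rw [hb, show 2 * 1 = 2 by norm_num, sum_range_succ, sum_range_one, hc0, hc1, hΦ]
    unfold qint
    simp only [sum_range_succ, sum_range_zero, mul_zero, zero_add, mul_one, pow_zero, pow_one,
      one_mul, Nat.sub_self, Nat.zero_div]
    norm_num [sum_range_succ]
    ring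
  rw [e1] at hmem
  have h4 := pi_k_cancel (k := 1) (l := 1) hmem
  have h5 := ev_of_mem one_pos hη h4
  have e2 : (-q ^ 2 - 2 * q - 3) =
      algebraMap ℚ[X] (RatFunc ℚ) (-X ^ 2 - 2 * X - 3) := by
    simp only [map_sub, map_mul, map_pow, map_neg, map_ofNat, RatFunc.algebraMap_X]
  rw [e2, ev_poly] at h5
  simp at h5
  norm_num at h5

/-- The congruence holds for all `m ≥ 1` and all odd `n > 1`; it fails for `m = 2`, `n = 1`. -/
theorem result : (∀ m n : ℕ, 1 ≤ m → 1 < n → Odd n → Holds m n) ∧ ¬ Holds 2 1 := by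
  refine ⟨?_, not_one⟩
  intro m n _ hn1 ⟨N, hN⟩
  have hη := Complex.isPrimitiveRoot_exp n (by omega : n ≠ 0)
  have h1 := local_main hη hN (by omega) m
  obtain ⟨h2, h3⟩ := num_dvd (by omega) hη h1
  exact ⟨h2, h3.pow_right⟩

end Pool.Agent.Results.MP_c82d9a_nt.Full
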